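import Pool.Agent.W200.MR.Stm

open Finset Filter Topology MeasureTheory

namespace Pool.Agent.W991.MR

open Pool.Agent.W200.MR

theorem norm_pw (s : ℝ) (n : ℕ) : ‖pw s n‖ = 1 := by
  unfold pw
  exact Complex.norm_exp_ofReal_mul_I _

theorem pw_zero (s : ℝ) : pw s 0 = 1 := by
  unfold pw
  simp

theorem pw_mul (s : ℝ) {m n : ℕ} (hm : 1 ≤ m) (hn : 1 ≤ n) : pw s (m * n) = pw s m * pw s n := by
  unfold pw
  rw [← Complex.exp_add]
  congr 1
  have h1 : (m : ℝ) ≠ 0 := by
    exact_mod_cast (by omega : m ≠ 0)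
  have h2 : (n : ℝ) ≠ 0 := by
    exact_mod_cast (by omega : n ≠ 0)
  push_cast
  rw [Real.log_mul h1 h2]
  push_cast
  ring

theorem t_LIM : S_LIM := by
  intro s T hT hs
  have hmono : StrictMono T := strictMono_nat_of_lt_succ hT
  have hstep : ∀ k n : ℕ, 1 ≤ n → n < T k → ∀ j : ℕ,
      dist (pw (s (k + j)) n) (pw (s (k + (j + 1))) n) ≤ (1 / 2 : ℝ) ^ k * (1 / 2) ^ j := by
    intro k n h1 hn j
    rw [dist_comm, dist_eq_norm, ← pow_add]
    exact hs (k + j) n h1 (hn.trans_le (hmono.monotone (Nat.le_add_right k j)))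
  have hex : ∀ n : ℕ, ∃ L : ℂ, Tendsto (fun k => pw (s k) n) atTop (𝓝 L) := by
    intro n
    rcases Nat.eq_zero_or_pos n with rfl | hn
    · refine ⟨1, ?_⟩
      simp only [pw_zero]
      exact tendsto_const_nhds
    · have hlt : n < T (n + 1) := lt_of_lt_of_le (Nat.lt_succ_self n) (hmono.id_le (n + 1))
      have hc : CauchySeq (fun j => pw (s (n + 1 + j)) n) :=
        cauchySeq_of_le_geometric (1 / 2) ((1 / 2 : ℝ) ^ (n + 1)) (by norm_num)
          (hstep (n + 1) n hn hlt)
      obtain ⟨L, hL⟩ := cauchySeq_tendsto_of_complete hc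
      refine ⟨L, ?_⟩
      rw [← tendsto_add_atTop_iff_nat (n + 1)]
      refine hL.congr fun j => ?_
      rw [add_comm]
  choose F hF using hex
  refine ⟨F, ?_, ?_, ?_⟩
  · intro n
    have h1 := (hF n).norm
    simp only [norm_pw] at h1
    exact tendsto_nhds_unique h1 tendsto_const_nhds
  · intro m n hm hn
    have h1 := (hF m).mul (hF n)
    have h2 := hF (m * n)
    refine tendsto_nhds_unique h2 (h1.congr fun k => ?_)
    rw [pw_mul _ hm hn]
  · intro k n hn hk
    have h1 : Tendsto (fun j => pw (s (k + j)) n) atTop (𝓝 (F n)) := by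
      have h2 := (tendsto_add_atTop_iff_nat k).2 (hF n)
      refine h2.congr fun j => ?_
      rw [add_comm]
    have h3 := dist_le_of_le_geometric_of_tendsto (1 / 2) ((1 / 2 : ℝ) ^ k) (by norm_num)
      (hstep k n hn hk) h1 0
    rw [dist_comm, dist_eq_norm] at h3
    simp only [add_zero, pow_zero, mul_one] at h3
    refine h3.trans (le_of_eq ?_)
    ring

end Pool.Agent.W991.MR
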